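import Pool.Agent.J4H43.PP.Stm
import Pool.Agent.J4H43.MW.Kb
import Pool.Agent.J4H43.MW.Van
import Pool.Agent.J4H80.MW.Hl
import Pool.Agent.J4H89.MW.Ll
import Pool.Agent.J4H49.MW.Td
import Pool.Agent.J4H89.MW.Rep
import Pool.Agent.J4H48.MW.AD
import Pool.Agent.J4H13.MW.Ev

/-!
# The dimensions of the depth graded pieces: assembly
-/

set_option autoImplicit false

namespace Pool.Agent.J4H43.PP

open Pool.Agent.Helper392_GT Pool.Agent.J4H43.FR Pool.Agent.J4H43.SW Pool.Agent.J4H43.MW

universe u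

attribute [local instance 100] LieRing.ofAssociativeRing

/-- no depth drop, for elements of several weights -/
theorem no_drop_sev {k : Type u} [Field k] [CharZero k] {r d : ℕ} {n : Fin r → ℕ}
    {σ : Fin r → F2 k}
    (hσ : ∀ i, IsGRT k (σ i)) (hw : ∀ i, σ i ∈ wt k (n i))
    (hn : (Finset.univ.image n).card ≤ 1 ∨ ∀ i, (Finset.univ.image n).card * d < n i)
    (hd : ∀ i, DepthGE k d (σ i))
    (hli : ∀ c : Fin r → k, DepthGE k (d + 1) (∑ i, c i • σ i) → c = 0)
    {D : Fin r → LieDerivation k (F2 k) (F2 k)} (hD : ∀ i, IsIharaDer (D i) (σ i))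
    {R : FreeLieAlgebra k (Fin r)} {w : FreeMonoid (Fin r)} (hR : wc w (toA k r R) ≠ 0)
    {h : F2 k} (hh : FreeLieAlgebra.lift k D R (gy k) = ⁅gy k, h⁆) :
    ¬ DepthGE k (w.length * d + 1) h := by
  have van : S_VAN.{u} := t_VAN (t_KB Pool.Agent.J4H80.MW.t_HL Pool.Agent.J4H89.MW.LL.t_LL
    Pool.Agent.J4H49.MW.t_TD Pool.Agent.J4H89.MW.t_REP)
  exact no_drop_all van Pool.Agent.J4H48.MW.t_AD Pool.Agent.J4H13.MW.t_EV hσ hw hn hd hli hD hR hh

section

variable {k : Type u} [Field k]

theorem wordCoeff_sum {ι : Type} (s : Finset ι) (f : ι → F2 k) (w : FreeMonoid (Fin 2)) :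
    wordCoeff k (∑ i ∈ s, f i) w = ∑ i ∈ s, wordCoeff k (f i) w := by
  rw [wordCoeff_eq, map_sum, map_sum]
  rfl

theorem wordCoeff_smul (c : k) (f : F2 k) (w : FreeMonoid (Fin 2)) :
    wordCoeff k (c • f) w = c * wordCoeff k f w := by
  rw [wordCoeff_eq, map_smul, map_smul]
  rfl

theorem soule_coeff {σ : F2 k} {m : ℕ} (h : DepthGE k 2 (σ - vm k m)) (n : ℕ) :
    wordCoeff k σ (FreeMonoid.of 0 ^ n * FreeMonoid.of 1) = if n = m then 1 else 0 := by
  have h1 := h (FreeMonoid.of 0 ^ n * FreeMonoid.of 1) (by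
    have : (FreeMonoid.toList (FreeMonoid.of (0 : Fin 2) ^ n * FreeMonoid.of 1)).count 1 = 1 := by
      rw [FreeMonoid.toList_mul, FreeMonoid.toList_of, List.count_append]
      have h2 : ∀ n : ℕ, (FreeMonoid.toList (FreeMonoid.of (0 : Fin 2) ^ n)).count 1 = 0 := by
        intro n
        induction n with
        | zero => rfl
        | succ n ih =>
          rw [pow_succ, FreeMonoid.toList_mul, FreeMonoid.toList_of, List.count_append, ih]
          rfl
      rw [h2]
      rfl
    exact lt_of_eq_of_lt this (by norm_num))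
  rw [wordCoeff_sub, sub_eq_zero] at h1
  rw [h1]
  exact wc_ad m n

theorem soule_depth [CharZero k] {σ : F2 k} {m : ℕ} (h : DepthGE k 2 (σ - vm k m)) :
    DepthGE k 1 σ := by
  have h1 : DepthGE k 1 (vm k m) := by
    induction m with
    | zero => exact depth_y
    | succ m _ =>
      have h2 : ∀ m, DepthGE k 1 (vm k m) := by
        intro m
        induction m with
        | zero => exact depth_y
        | succ m ih =>
          rw [vm_succ]
          have := (depth_all (gx k)).lie ih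
          rwa [zero_add] at this
      exact h2 _
  have h2 : σ = (σ - vm k m) + vm k m := by abel
  rw [h2]
  exact (depth_mono (by norm_num) h).add h1

theorem map_do {m : ℕ} (A : ℕ) (l : List (Fin m)) :
    (l.map fun a => A + 2 * (a : ℕ)) = List.map (fun i : Fin m => A + 2 * (i : ℕ)) l := by
  change List.map (fun a => A + 2 * a) (List.flatMap (fun a : Fin m => [(a : ℕ)]) l) =
    List.map (fun i : Fin m => A + 2 * (i : ℕ)) l
  induction l with
  | nil => rfl
  | cons a l ih =>
    rw [List.flatMap_cons, List.map_append, ih]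
    rfl

/-- the independence -/
theorem indep [CharZero k] (ih : S_IH.{u}) (ex : S_EX.{u}) (wd : S_WORD.{u})
    {𝔤 : Submodule k (F2 k)} (hgrt : 𝔤 ≤ grtSub k) (hbr : IharaClosed 𝔤) (hs : HasSoule 𝔤)
    {A m N r : ℕ} (hA : Odd A) (hA3 : 3 ≤ A) (hm : m < A)
    (S : Finset (Fin m × List (Fin m)))
    (hS : ∀ s ∈ S, (∀ a ∈ s.2, a < s.1) ∧ s.2.length + 1 = r ∧
        (A + 2 * (s.1 : ℕ)) + (s.2.map fun a => A + 2 * (a : ℕ)).sum = N) :
    ∃ h : S → F2 k, (∀ s, h s ∈ pc 𝔤 N r) ∧
      ∀ c : S → k, ∑ s, c s • h s ∈ pc 𝔤 N (r + 1) → c = 0 := by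
  classical
  have hσ0 : ∀ i : Fin m, ∃ σ ∈ 𝔤, σ ∈ wt k (A + 2 * (i : ℕ)) ∧
      DepthGE k 2 (σ - vm k (A + 2 * (i : ℕ) - 1)) := by
    intro i
    exact hs (A + 2 * (i : ℕ)) (by
      obtain ⟨b, hb⟩ := hA
      exact ⟨b + i, by omega⟩) (by omega)
  choose σ hσ𝔤 hσw hσd using hσ0
  choose D hD using fun i => ex k (σ i)
  have hdep : ∀ i, DepthGE k 1 (σ i) := fun i => soule_depth (hσd i)
  set n : Fin m → ℕ := fun i => A + 2 * (i : ℕ) with hn
  have hcard : (Finset.univ.image n).card ≤ m := by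
    refine Finset.card_image_le.trans ?_
    rw [Finset.card_univ, Fintype.card_fin]
  have hli : ∀ c : Fin m → k, DepthGE k (1 + 1) (∑ i, c i • σ i) → c = 0 := by
    intro c hc
    funext i
    have h1 := hc (FreeMonoid.of 0 ^ (A + 2 * (i : ℕ) - 1) * FreeMonoid.of 1) (by
      have : (FreeMonoid.toList (FreeMonoid.of (0 : Fin 2) ^ (A + 2 * (i : ℕ) - 1) *
          FreeMonoid.of 1)).count 1 = 1 := by
        rw [FreeMonoid.toList_mul, FreeMonoid.toList_of, List.count_append]
        have h2 : ∀ n : ℕ, (FreeMonoid.toList (FreeMonoid.of (0 : Fin 2) ^ n)).count 1 = 0 := by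
          intro n
          induction n with
          | zero => rfl
          | succ n ih =>
            rw [pow_succ, FreeMonoid.toList_mul, FreeMonoid.toList_of, List.count_append, ih]
            rfl
        rw [h2]
        rfl
      exact lt_of_eq_of_lt this (by norm_num))
    rw [wordCoeff_sum, Finset.sum_eq_single i] at h1
    · rw [wordCoeff_smul, soule_coeff (hσd i), if_pos rfl, mul_one] at h1
      exact h1
    · intro j _ hj
      rw [wordCoeff_smul, soule_coeff (hσd j), if_neg, mul_zero]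
      intro h
      apply hj
      apply Fin.ext
      omega
    · intro h
      exact absurd (Finset.mem_univ i) h
  choose h hh𝔤 hhD hhw hhd using fun s : Fin m × List (Fin m) =>
    ih k 𝔤 hbr m σ n D hD hσ𝔤 hσw hdep s.1 s.2
  refine ⟨fun s => h s.1, fun s => ⟨⟨hh𝔤 s.1, ?_⟩, ?_⟩, fun c hc => ?_⟩
  · have h1 := (hS s.1 s.2).2.2
    have h2 := hhw s.1
    rw [← h1, map_do]
    exact h2
  · have h1 := (hS s.1 s.2).2.1
    have h2 := hhd s.1
    rw [h1] at h2
    exact h2
  · by_contra hne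
    obtain ⟨s, hs0⟩ : ∃ s, c s ≠ 0 := by
      by_contra hcon
      push Not at hcon
      exact hne (funext hcon)
    set R : FreeLieAlgebra k (Fin m) := ∑ s : S, c s • br k s.1.1 s.1.2 with hR
    have hcoef : wc (FreeMonoid.ofList (s.1.1 :: s.1.2)) (toA k m R) = c s := by
      rw [hR, map_sum, map_sum, Finset.sum_eq_single s]
      · rw [map_smul, map_smul, wd k m _ _ _ _ (hS s.1 s.2).1 (hS s.1 s.2).1,
          if_pos ⟨rfl, rfl⟩, smul_eq_mul, mul_one]
      · intro t _ hts
        rw [map_smul, map_smul, wd k m _ _ _ _ (hS s.1 s.2).1 (hS t.1 t.2).1, if_neg,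
          smul_zero]
        rintro ⟨h1, h2⟩
        apply hts
        apply Subtype.ext
        exact Prod.ext h1.symm h2.symm
      · intro h
        exact absurd (Finset.mem_univ s) h
    have hDR : FreeLieAlgebra.lift k D R (gy k) = ⁅gy k, ∑ s : S, c s • h s.1⁆ := by
      rw [hR, map_sum, lie_sum]
      have : ∀ (T : Finset S) (f : S → LieDerivation k (F2 k) (F2 k)),
          (∑ s ∈ T, f s) (gy k) = ∑ s ∈ T, f s (gy k) := by
        intro T f
        induction T using Finset.induction_on with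
        | empty => rfl
        | insert a T ha ih =>
          rw [Finset.sum_insert ha, Finset.sum_insert ha, LieDerivation.add_apply, ih]
      rw [this]
      refine Finset.sum_congr rfl fun s _ => ?_
      rw [map_smul, LieDerivation.smul_apply, lie_smul]
      congr 1
      exact (hhD s.1).2
    refine no_drop_sev (d := 1) (fun i => hgrt (hσ𝔤 i)) hσw (Or.inr fun i => ?_) hdep hli hD
      (w := FreeMonoid.ofList (s.1.1 :: s.1.2)) (R := R) (by rw [hcoef]; exact hs0) hDR ?_
    · rw [mul_one]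
      exact lt_of_le_of_lt hcard (by omega)
    · have h1 : (FreeMonoid.ofList (s.1.1 :: s.1.2)).length = r := by
        have := (hS s.1 s.2).2.1
        rw [← this]
        rfl
      rw [h1, mul_one]
      exact hc.2

theorem lower [CharZero k] (ih : S_IH.{u}) (ex : S_EX.{u}) (wd : S_WORD.{u}) (comb : S_COMB)
    (fr : S_FR.{u}) {𝔤 : Submodule k (F2 k)} (hgrt : 𝔤 ≤ grtSub k) (hbr : IharaClosed 𝔤)
    (hs : HasSoule 𝔤) {N r : ℕ} (hr : 1 ≤ r) (hN : 4 * (r * (r + 2)) ≤ N) (hpar : N % 2 = r % 2)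
    (hfin : Module.Finite k (wt k N)) :
    (N / (2 * (r * (r + 2)))) ^ (r - 1) ≤ dimG 𝔤 N r := by
  obtain ⟨A, m, S, hA, hA3, hm, hS, hcard⟩ := comb r N hr hN hpar
  obtain ⟨h, h1, h2⟩ := indep ih ex wd hgrt hbr hs hA hA3 hm S hS
  have hfin' : Module.Finite k (pc 𝔤 N r) :=
    Submodule.finiteDimensional_of_le (show pc 𝔤 N r ≤ wt k N from fun x hx => hx.1.2)
  have := fr k (F2 k) (pc 𝔤 N r) (pc 𝔤 N (r + 1)) hfin' S h h1 h2
  rw [Fintype.card_coe] at this
  exact hcard.trans this

end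

end Pool.Agent.J4H43.PP
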