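import Pool.Agent.J4H43.PP.Asm

/-!
# The dimensions of the depth graded pieces: general weights, and one bracket in every depth
-/

set_option autoImplicit false

namespace Pool.Agent.J4H43.PP

open Pool.Agent.Helper392_GT Pool.Agent.J4H43.FR Pool.Agent.J4H43.SW Pool.Agent.J4H43.MW

universe u

attribute [local instance 100] LieRing.ofAssociativeRing

section

variable {k : Type u} [Field k]

/-- the independence, for general weights -/
theorem indepG [CharZero k] (ih : S_IH.{u}) (ex : S_EX.{u}) (wd : S_WORD.{u})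
    {𝔤 : Submodule k (F2 k)} (hgrt : 𝔤 ≤ grtSub k) (hbr : IharaClosed 𝔤) (hs : HasSoule 𝔤)
    {m N r : ℕ} (n : Fin m → ℕ) (hinj : Function.Injective n) (hodd : ∀ i, Odd (n i))
    (h3 : ∀ i, 3 ≤ n i) (hm : ∀ i, m < n i)
    (S : Finset (Fin m × List (Fin m)))
    (hS : ∀ s ∈ S, (∀ a ∈ s.2, a < s.1) ∧ s.2.length + 1 = r ∧
        n s.1 + (s.2.map n).sum = N) :
    ∃ h : S → F2 k, (∀ s, h s ∈ pc 𝔤 N r) ∧
      ∀ c : S → k, ∑ s, c s • h s ∈ pc 𝔤 N (r + 1) → c = 0 := by
  classical
  have hσ0 : ∀ i : Fin m, ∃ σ ∈ 𝔤, σ ∈ wt k (n i) ∧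
      DepthGE k 2 (σ - vm k (n i - 1)) := fun i => hs (n i) (hodd i) (h3 i)
  choose σ hσ𝔤 hσw hσd using hσ0
  choose D hD using fun i => ex k (σ i)
  have hdep : ∀ i, DepthGE k 1 (σ i) := fun i => soule_depth (hσd i)
  have hcard : (Finset.univ.image n).card ≤ m := by
    refine Finset.card_image_le.trans ?_
    rw [Finset.card_univ, Fintype.card_fin]
  have hli : ∀ c : Fin m → k, DepthGE k (1 + 1) (∑ i, c i • σ i) → c = 0 := by
    intro c hc
    funext i
    have h1 := hc (FreeMonoid.of 0 ^ (n i - 1) * FreeMonoid.of 1) (by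
      have : (FreeMonoid.toList (FreeMonoid.of (0 : Fin 2) ^ (n i - 1) *
          FreeMonoid.of 1)).count 1 = 1 := by
        rw [FreeMonoid.toList_mul, FreeMonoid.toList_of, List.count_append]
        have h2 : ∀ n : ℕ, (FreeMonoid.toList (FreeMonoid.of (0 : Fin 2) ^ n)).count 1 = 0 := by
          intro n
          induction n with
          | zero => rfl
          | succ n ih =>
            rw [pow_succ, FreeMonoid.toList_mul, FreeMonoid.toList_of, List.count_append, ih]
            rfl
        rw [h2]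
        rfl
      exact lt_of_eq_of_lt this (by norm_num))
    rw [wordCoeff_sum, Finset.sum_eq_single i] at h1
    · rw [wordCoeff_smul, soule_coeff (hσd i), if_pos rfl, mul_one] at h1
      exact h1
    · intro j _ hj
      rw [wordCoeff_smul, soule_coeff (hσd j), if_neg, mul_zero]
      intro h
      apply hj
      apply hinj
      have := h3 i
      have := h3 j
      omega
    · intro h
      exact absurd (Finset.mem_univ i) h
  choose h hh𝔤 hhD hhw hhd using fun s : Fin m × List (Fin m) =>
    ih k 𝔤 hbr m σ n D hD hσ𝔤 hσw hdep s.1 s.2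
  refine ⟨fun s => h s.1, fun s => ⟨⟨hh𝔤 s.1, ?_⟩, ?_⟩, fun c hc => ?_⟩
  · have h1 := (hS s.1 s.2).2.2
    have h2 := hhw s.1
    rw [← h1]
    exact h2
  · have h1 := (hS s.1 s.2).2.1
    have h2 := hhd s.1
    rw [h1] at h2
    exact h2
  · by_contra hne
    obtain ⟨s, hs0⟩ : ∃ s, c s ≠ 0 := by
      by_contra hcon
      push Not at hcon
      exact hne (funext hcon)
    set R : FreeLieAlgebra k (Fin m) := ∑ s : S, c s • br k s.1.1 s.1.2 with hR
    have hcoef : wc (FreeMonoid.ofList (s.1.1 :: s.1.2)) (toA k m R) = c s := by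
      rw [hR, map_sum, map_sum, Finset.sum_eq_single s]
      · rw [map_smul, map_smul, wd k m _ _ _ _ (hS s.1 s.2).1 (hS s.1 s.2).1,
          if_pos ⟨rfl, rfl⟩, smul_eq_mul, mul_one]
      · intro t _ hts
        rw [map_smul, map_smul, wd k m _ _ _ _ (hS s.1 s.2).1 (hS t.1 t.2).1, if_neg,
          smul_zero]
        rintro ⟨h1, h2⟩
        apply hts
        apply Subtype.ext
        exact Prod.ext h1.symm h2.symm
      · intro h
        exact absurd (Finset.mem_univ s) h
    have hDR : FreeLieAlgebra.lift k D R (gy k) = ⁅gy k, ∑ s : S, c s • h s.1⁆ := by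
      rw [hR, map_sum, lie_sum]
      have : ∀ (T : Finset S) (f : S → LieDerivation k (F2 k) (F2 k)),
          (∑ s ∈ T, f s) (gy k) = ∑ s ∈ T, f s (gy k) := by
        intro T f
        induction T using Finset.induction_on with
        | empty => rfl
        | insert a T ha ih =>
          rw [Finset.sum_insert ha, Finset.sum_insert ha, LieDerivation.add_apply, ih]
      rw [this]
      refine Finset.sum_congr rfl fun s _ => ?_
      rw [map_smul, LieDerivation.smul_apply, lie_smul]
      congr 1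
      exact (hhD s.1).2
    refine no_drop_sev (d := 1) (fun i => hgrt (hσ𝔤 i)) hσw (Or.inr fun i => ?_) hdep hli hD
      (w := FreeMonoid.ofList (s.1.1 :: s.1.2)) (R := R) (by rw [hcoef]; exact hs0) hDR ?_
    · rw [mul_one]
      exact lt_of_le_of_lt hcard (hm i)
    · have h1 : (FreeMonoid.ofList (s.1.1 :: s.1.2)).length = r := by
        have := (hS s.1 s.2).2.1
        rw [← this]
        rfl
      rw [h1, mul_one]
      exact hc.2

/-- one bracket in every depth below a third of the weight -/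
theorem pos_dim [CharZero k] (ih : S_IH.{u}) (ex : S_EX.{u}) (wd : S_WORD.{u})
    (fr : S_FR.{u}) {𝔤 : Submodule k (F2 k)} (hgrt : 𝔤 ≤ grtSub k) (hbr : IharaClosed 𝔤)
    (hs : HasSoule 𝔤) {N r : ℕ} (hr : 1 ≤ r) (hN : 3 * r < N) (hpar : N % 2 = r % 2)
    (hfin : Module.Finite k (wt k N)) :
    1 ≤ dimG 𝔤 N r := by
  classical
  obtain ⟨p, rfl⟩ : ∃ p, r = p + 1 := ⟨r - 1, by omega⟩
  obtain ⟨q, hq⟩ : ∃ q, N = 3 * p + q := ⟨N - 3 * p, by omega⟩
  have hq3 : 5 ≤ q := by omega
  have hqo : Odd q := by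
    rw [Nat.odd_iff]
    omega
  have hfin' : Module.Finite k (pc 𝔤 N (p + 1)) :=
    Submodule.finiteDimensional_of_le (show pc 𝔤 N (p + 1) ≤ wt k N from fun x hx => hx.1.2)
  have hi : Function.Injective (![3, q] : Fin 2 → ℕ) := by
    intro i j hij
    fin_cases i <;> fin_cases j <;> simp at hij ⊢ <;> omega
  obtain ⟨h, h1, h2⟩ := indepG (N := N) (r := p + 1) ih ex wd hgrt hbr hs (![3, q] : Fin 2 → ℕ) hi
    (by intro i; fin_cases i <;> simp [hqo]; decide)
    (by intro i; fin_cases i <;> simp; omega)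
    (by intro i; fin_cases i <;> simp; omega)
    {((1 : Fin 2), List.replicate p (0 : Fin 2))}
    (by
      intro s hs
      rw [Finset.mem_singleton] at hs
      subst hs
      refine ⟨?_, ?_, ?_⟩
      · intro a ha
        rw [List.eq_of_mem_replicate ha]
        exact Fin.zero_lt_one
      · simp
      · simp only [List.map_replicate, List.sum_replicate, Matrix.cons_val_one,
          Matrix.cons_val_zero, smul_eq_mul, Matrix.cons_val_fin_one]
        omega)
  have := fr k (F2 k) (pc 𝔤 N (p + 1)) (pc 𝔤 N (p + 1 + 1)) hfin' _ h h1 h2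
  rw [Fintype.card_coe, Finset.card_singleton] at this
  exact this

end

end Pool.Agent.J4H43.PP
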