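import Pool.Agent.J4H43.PP.Stm
import Pool.Agent.J4H43.SW.J12

/-!
# The depth of `D_f u`
-/

set_option autoImplicit false

namespace Pool.Agent.J4H43.PP

open Pool.Agent.Helper392_GT Pool.Agent.J4H43.FR Pool.Agent.J4H43.SW Pool.Agent.J4H43.MW
open Pool.Agent.Helper771.FreeLieGrad

universe u

attribute [local instance 100] LieRing.ofAssociativeRing

variable {k : Type u} [Field k]

theorem coeff_Hom [CharZero k] {m : ℕ} {f : F2 k} (hf : f ∈ Hom (K := k) wy m)
    {w : FreeMonoid (Fin 2)} (hw : cy w ≠ m) : wordCoeff k f w = 0 := by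
  have h1 := wc_yc (toAssoc k f) w (cy w)
  rw [if_pos rfl, Hom_yc hf, Polynomial.coeff_C_mul, Polynomial.coeff_X_pow, if_neg hw, mul_zero,
    map_zero] at h1
  exact h1.symm

theorem sum_comp (u : F2 k) : ∃ N, u = ∑ i ∈ Finset.range N, comp (K := k) wy i u := by
  obtain ⟨N, hN⟩ := exists_bound (K := k) wy u
  exact ⟨N, (hN N le_rfl).2.symm⟩

theorem comp_depth [CharZero k] {u : F2 k} {n i : ℕ} (hu : DepthGE k n u) (hi : i < n) :
    comp (K := k) wy i u = 0 := by
  apply toAssoc_inj
  refine wc_ext fun w => ?_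
  by_cases hw : cy w = i
  · obtain ⟨N, hN⟩ := sum_comp u
    have h0 : cy w < n := by omega
    have h1 : wordCoeff k u w = 0 := hu w h0
    by_cases hiN : i < N
    · rw [hN, wordCoeff_eq, map_sum, map_sum, Finset.sum_eq_single i] at h1
      · exact h1
      · intro j _ hj
        exact coeff_Hom (comp_mem_Hom wy j u) (by omega)
      · intro h
        exact absurd (Finset.mem_range.mpr hiN) h
    · have h2 : comp (K := k) wy i u = 0 := by
        conv_lhs => rw [hN]
        rw [map_sum]
        refine Finset.sum_eq_zero fun j hj => ?_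
        have := Finset.mem_range.mp hj
        exact comp_ne wy (comp_mem_Hom wy j u) (by omega)
      rw [h2, map_zero, map_zero]
  · exact coeff_Hom (comp_mem_Hom wy i u) hw

theorem der_dep_Hom [CharZero k] {m : ℕ} {f : F2 k} {D : LieDerivation k (F2 k) (F2 k)}
    (hD : IsIharaDer D f) (hf : DepthGE k m f) {n : ℕ} {u : F2 k}
    (hu : u ∈ Hom (K := k) wy n) : DepthGE k (m + n) (D u) := by
  have h := Hom_le (K := k) wy (T := fun n => (dep k (m + n)).comap
    (D : F2 k →ₗ[k] F2 k)) ?_ ?_ n hu
  · exact h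
  · intro i j a ha b hb hai hbj
    have ha' : DepthGE k (m + i) (D a) := ha
    have hb' : DepthGE k (m + j) (D b) := hb
    change DepthGE k (m + (i + j)) (D ⁅a, b⁆)
    rw [LieDerivation.apply_lie_eq_sub]
    have h1 := ((t_J2 k i a hai).1).lie hb'
    have h2 := ((t_J2 k j b hbj).1).lie ha'
    rw [show i + (m + j) = m + (i + j) by ring] at h1
    rw [show j + (m + i) = m + (i + j) by ring] at h2
    exact h1.sub h2
  · intro y
    fin_cases y
    · change DepthGE k (m + 0) (D (gx k))
      have : D (gx k) = 0 := hD.1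
      rw [this]; exact DepthGE.zero _
    · change DepthGE k (m + 1) (D (gy k))
      have : D (gy k) = ⁅gy k, f⁆ := hD.2
      rw [this, add_comm]
      exact depth_y.lie hf

theorem t_DER : S_DER.{u} := by
  intro k _ _ m n f u D hD hf hu
  obtain ⟨N, hN⟩ := sum_comp u
  rw [hN, map_sum]
  refine Finset.sum_induction _ (fun x => DepthGE k (m + n) x) (fun _ _ ha hb => ha.add hb)
    (DepthGE.zero _) fun i _ => ?_
  by_cases hi : i < n
  · rw [comp_depth hu hi, map_zero]
    exact DepthGE.zero _
  · exact depth_mono (by omega) (der_dep_Hom hD hf (comp_mem_Hom wy i u))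

end Pool.Agent.J4H43.PP
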