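import Pool.Agent.J4H43.PP.Stm
import Pool.Agent.Helper771.FreeLieGrad

set_option autoImplicit false

namespace Pool.Agent.J4H43.PP

open Pool.Agent.Helper392_GT Pool.Agent.J4H43.FR Pool.Agent.J4H43.SW Pool.Agent.J4H43.MW
open Pool.Agent.Helper771.FreeLieGrad

universe u

variable {k : Type u} [Field k]

/-- `x ↦ x`, `y ↦ y + t [y, f]` -/
noncomputable def phi (f : F2 k) : F2 k →ₗ⁅k⁆ Seq (F2 k) :=
  FreeLieAlgebra.lift k ![(fun n => if n = 0 then gx k else 0 : Seq (F2 k)),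
    (fun n => if n = 0 then gy k else if n = 1 then ⁅gy k, f⁆ else 0 : Seq (F2 k))]

theorem phi_x (f : F2 k) : phi f (gx k) = (fun n => if n = 0 then gx k else 0 : Seq (F2 k)) :=
  FreeLieAlgebra.lift_of_apply _ _

theorem phi_y (f : F2 k) : phi f (gy k) =
    (fun n => if n = 0 then gy k else if n = 1 then ⁅gy k, f⁆ else 0 : Seq (F2 k)) :=
  FreeLieAlgebra.lift_of_apply _ _

theorem phi_zero (f a : F2 k) : phi f a 0 = a := by
  refine free_induction (P := fun a => phi f a 0 = a) ?_ ?_ ?_ ?_ ?_ a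
  · intro y
    fin_cases y
    · exact congrFun (phi_x f) 0
    · exact congrFun (phi_y f) 0
  · rw [map_zero]; rfl
  · intro a b ha hb
    rw [map_add]
    change phi f a 0 + phi f b 0 = _
    rw [ha, hb]
  · intro c a ha
    rw [map_smul]
    change c • phi f a 0 = _
    rw [ha]
  · intro a b ha hb
    rw [LieHom.map_lie, Seq.lie_apply, Finset.Nat.antidiagonal_zero, Finset.sum_singleton, ha, hb]

noncomputable def dphi (f : F2 k) : F2 k →ₗ[k] F2 k where
  toFun a := phi f a 1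
  map_add' a b := by rw [map_add]; rfl
  map_smul' c a := by rw [map_smul]; rfl

theorem dphi_lie (f a b : F2 k) : dphi f ⁅a, b⁆ = ⁅a, dphi f b⁆ - ⁅b, dphi f a⁆ := by
  change phi f ⁅a, b⁆ 1 = ⁅a, phi f b 1⁆ - ⁅b, phi f a 1⁆
  rw [LieHom.map_lie, Seq.lie_apply]
  have e : (Finset.HasAntidiagonal.antidiagonal 1 : Finset (ℕ × ℕ)) =
      {((0, 1) : ℕ × ℕ), (1, 0)} := by decide
  rw [e, Finset.sum_insert (by decide), Finset.sum_singleton]
  change ⁅phi f a 0, phi f b 1⁆ + ⁅phi f a 1, phi f b 0⁆ = _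
  rw [phi_zero, phi_zero, ← lie_skew (phi f a 1) b, sub_eq_add_neg]

theorem t_EX : S_EX.{u} := by
  intro k _ f
  exact ⟨⟨dphi f, dphi_lie f⟩, congrFun (phi_x f) 1, congrFun (phi_y f) 1⟩

end Pool.Agent.J4H43.PP
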