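import Pool.Agent.J4H43.PP.Stm
import Pool.Agent.J4H43.SW.J12

/-!
# Brackets of elements of an Ihara closed subspace
-/

set_option autoImplicit false

namespace Pool.Agent.J4H43.PP

open Pool.Agent.Helper392_GT Pool.Agent.J4H43.FR Pool.Agent.J4H43.SW Pool.Agent.J4H43.MW

universe u

attribute [local instance 100] LieRing.ofAssociativeRing

theorem br_snoc {k : Type u} [Field k] {m : ℕ} (j : Fin m) (l : List (Fin m)) (a : Fin m) :
    br k j (l ++ [a]) = ⁅br k j l, FreeLieAlgebra.of k a⁆ := by
  rw [br, List.foldl_append]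
  rfl

theorem t_IH (der : S_DER.{u}) : S_IH.{u} := by
  intro k _ _ 𝔤 hbr m σ n D hD h𝔤 hw hd j l
  induction l using List.reverseRecOn with
  | nil =>
    refine ⟨σ j, h𝔤 j, ?_, ?_, ?_⟩
    · have : FreeLieAlgebra.lift k D (br k j []) = D j := by
        rw [br, List.foldl_nil, FreeLieAlgebra.lift_of_apply]
      rw [this]
      exact hD j
    · rw [List.map_nil, List.sum_nil, add_zero]
      exact hw j
    · exact hd j
  | append_singleton l a ih =>
    obtain ⟨f, hf𝔤, hf, hfw, hfd⟩ := ih
    have hl : FreeLieAlgebra.lift k D (br k j (l ++ [a])) =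
        ⁅FreeLieAlgebra.lift k D (br k j l), D a⁆ := by
      rw [br_snoc, LieHom.map_lie, FreeLieAlgebra.lift_of_apply]
    refine ⟨⁅f, σ a⁆ + FreeLieAlgebra.lift k D (br k j l) (σ a) - D a f,
      hbr f hf𝔤 (σ a) (h𝔤 a) _ _ hf (hD a), ⟨?_, ?_⟩, ?_, ?_⟩
    · rw [hl, LieDerivation.commutator_apply, hf.1, (hD a).1, map_zero, map_zero, sub_zero]
    · rw [hl, LieDerivation.commutator_apply, hf.2, (hD a).2,
        LieDerivation.apply_lie_eq_sub, LieDerivation.apply_lie_eq_sub, hf.2, (hD a).2, lie_sub,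
        lie_add, leibniz_lie (FreeLieAlgebra.of k 1) f (σ a),
        ← lie_skew (σ a) ⁅(FreeLieAlgebra.of k 1 : F2 k), f⁆]
      abel
    · have e : n j + (List.map n (l ++ [a])).sum = (n j + (l.map n).sum) + n a := by
        rw [List.map_append, List.sum_append, List.map_singleton, List.sum_singleton]
        ring
      rw [e]
      refine Submodule.sub_mem _ (Submodule.add_mem _ (lie_wt hfw (hw a)) (der_wt hfw _ hf.1 hf.2
        (hw a))) ?_
      rw [add_comm _ (n a)]
      exact der_wt (hw a) _ (hD a).1 (hD a).2 hfw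
    · rw [List.length_append, List.length_singleton]
      refine ((hfd.lie (hd a)).add (der k _ _ f (σ a) _ hf hfd (hd a))).sub ?_
      have := der k _ _ (σ a) f _ (hD a) (hd a) hfd
      rwa [add_comm 1 (l.length + 1)] at this

end Pool.Agent.J4H43.PP
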