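import Pool.Agent.J4H43.PP.Asm
import Pool.Agent.J4H43.PP.Ih
import Pool.Agent.J4H43.PP.Der

/-!
# The dimensions of the depth graded pieces: the theorem
-/

set_option autoImplicit false

namespace Pool.Agent.J4H43.PP

open Pool.Agent.Helper392_GT Pool.Agent.J4H43.FR Pool.Agent.J4H43.SW Pool.Agent.J4H43.MW

universe u

attribute [local instance 100] LieRing.ofAssociativeRing

theorem dimG_eq {k : Type u} [Field k] (V : Submodule k (F2 k)) (N r : ℕ) : dimG V N r =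
    Module.finrank k (↥(V ⊓ (wt k N ⊓ dep k r)) ⧸
      (V ⊓ (wt k N ⊓ dep k (r + 1))).submoduleOf (V ⊓ (wt k N ⊓ dep k r))) := by
  unfold dimG pc
  rw [inf_assoc, inf_assoc]

theorem dimG_mono (mono : S_MONO.{u}) {k : Type u} [Field k] {V V' : Submodule k (F2 k)}
    (h : V ≤ V') {N : ℕ} (hfin : Module.Finite k (wt k N)) (r : ℕ) :
    dimG V N r ≤ dimG V' N r := by
  rw [dimG_eq, dimG_eq]
  exact mono k (F2 k) V V' (wt k N ⊓ dep k r) (wt k N ⊓ dep k (r + 1))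
    (Submodule.finiteDimensional_of_le (show wt k N ⊓ dep k r ≤ wt k N from inf_le_left)) h
    (inf_le_inf_left _ fun _ hx w hw => hx w (lt_trans hw (Nat.lt_succ_self r)))

theorem num {N r a b : ℕ} (hr : 1 ≤ r) (hN : 4 * (r * (r + 2)) ≤ N)
    (ha : (N / (2 * (r * (r + 2)))) ^ (r - 1) ≤ a) (hb : b ≤ (N - 1).choose (r - 1)) :
    (r - 1).factorial * b ≤ (3 * (r * (r + 2))) ^ (r - 1) * a := by
  set q := r * (r + 2) with hq
  have hq0 : 0 < q := Nat.mul_pos hr (by omega)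
  have h1 : (r - 1).factorial * b ≤ (N - 1) ^ (r - 1) := by
    refine (Nat.mul_le_mul_left _ hb).trans ?_
    rw [← Nat.descFactorial_eq_factorial_mul_choose]
    exact Nat.descFactorial_le_pow _ _
  have h2 : N - 1 ≤ 3 * q * (N / (2 * q)) := by
    have h3 : 2 ≤ N / (2 * q) := by
      rw [Nat.le_div_iff_mul_le (by omega)]
      omega
    have h4 : N < 2 * q * (N / (2 * q) + 1) := by
      have := Nat.lt_mul_div_succ N (show 0 < 2 * q by omega)
      exact this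
    have h5 := Nat.mul_le_mul_left q h3
    have h6 : 2 * q * (N / (2 * q) + 1) = 2 * (q * (N / (2 * q))) + 2 * q := by ring
    have h7 : 3 * q * (N / (2 * q)) = 3 * (q * (N / (2 * q))) := by ring
    omega
  calc (r - 1).factorial * b ≤ (N - 1) ^ (r - 1) := h1
    _ ≤ (3 * q * (N / (2 * q))) ^ (r - 1) := Nat.pow_le_pow_left h2 _
    _ = (3 * q) ^ (r - 1) * (N / (2 * q)) ^ (r - 1) := mul_pow _ _ _
    _ ≤ (3 * q) ^ (r - 1) * a := Nat.mul_le_mul_left _ ha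

theorem main (ex : S_EX.{u}) (wd : S_WORD.{u}) (comb : S_COMB) (fr : S_FR.{u})
    (mono : S_MONO.{u}) (up : S_UP.{u}) {k : Type u} [Field k] [CharZero k]
    {𝔤 : Submodule k (F2 k)} (hgrt : 𝔤 ≤ grtSub k) (hbr : IharaClosed 𝔤)
    (hs : HasSoule 𝔤) {N r : ℕ} (hr : 1 ≤ r) (hN : 4 * (r * (r + 2)) ≤ N)
    (hpar : N % 2 = r % 2) :
    (N / (2 * (r * (r + 2)))) ^ (r - 1) ≤ dimG 𝔤 N r ∧
      dimG 𝔤 N r ≤ dimG (grtSub k) N r ∧ dimG (grtSub k) N r ≤ (N - 1).choose (r - 1) ∧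
      (r - 1).factorial * dimG (grtSub k) N r ≤ (3 * (r * (r + 2))) ^ (r - 1) * dimG 𝔤 N r := by
  have hN2 : 2 ≤ N := by nlinarith
  obtain ⟨hfin, hup⟩ := up k (grtSub k) N r hN2 hr
  have h1 := lower (t_IH t_DER) ex wd comb fr hgrt hbr hs hr hN hpar hfin
  exact ⟨h1, dimG_mono mono hgrt hfin r, hup, num hr hN h1 hup⟩

end Pool.Agent.J4H43.PP
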