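import Pool.Agent.J4H43.PP.Stm

/-!
# The dimensions of the depth graded pieces: statements with better constants
-/

set_option autoImplicit false

namespace Pool.Agent.J4H43.PP

/-- (COMB2) the number of the brackets -/
def S_COMB2 : Prop := ∀ (r N : ℕ) (_ : 1 ≤ r) (_ : 5 * (r * (r + 2)) ≤ N) (_ : N % 2 = r % 2),
    ∃ (A m : ℕ) (S : Finset (Fin m × List (Fin m))), Odd A ∧ 3 ≤ A ∧ m < A ∧
      (∀ s ∈ S, (∀ a ∈ s.2, a < s.1) ∧ s.2.length + 1 = r ∧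
        (A + 2 * (s.1 : ℕ)) + (s.2.map fun a => A + 2 * (a : ℕ)).sum = N) ∧
      (N / (5 * r)) ^ (r - 1) ≤ r * S.card

/-- (NUM2) the comparison of the bounds -/
def S_NUM2 : Prop := ∀ (r N a b : ℕ) (_ : 1 ≤ r) (_ : 5 * (r * (r + 2)) ≤ N)
    (_ : (N / (5 * r)) ^ (r - 1) ≤ r * a) (_ : b ≤ (N - 1).choose (r - 1)), b ≤ 20 ^ r * a

end Pool.Agent.J4H43.PP
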