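import Pool.Agent.J4H43.PP.Fin
import Pool.Agent.J4H43.PP.Stm2

/-!
# The dimensions of the depth graded pieces: the theorem with better constants
-/

set_option autoImplicit false

namespace Pool.Agent.J4H43.PP

open Pool.Agent.Helper392_GT Pool.Agent.J4H43.FR Pool.Agent.J4H43.SW Pool.Agent.J4H43.MW

universe u

attribute [local instance 100] LieRing.ofAssociativeRing

theorem lower2 (ih : S_IH.{u}) (ex : S_EX.{u}) (wd : S_WORD.{u}) (comb : S_COMB2)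
    (fr : S_FR.{u}) {k : Type u} [Field k] [CharZero k] {𝔤 : Submodule k (F2 k)}
    (hgrt : 𝔤 ≤ grtSub k) (hbr : IharaClosed 𝔤)
    (hs : HasSoule 𝔤) {N r : ℕ} (hr : 1 ≤ r) (hN : 5 * (r * (r + 2)) ≤ N) (hpar : N % 2 = r % 2)
    (hfin : Module.Finite k (wt k N)) :
    (N / (5 * r)) ^ (r - 1) ≤ r * dimG 𝔤 N r := by
  obtain ⟨A, m, S, hA, hA3, hm, hS, hcard⟩ := comb r N hr hN hpar
  obtain ⟨h, h1, h2⟩ := indep ih ex wd hgrt hbr hs hA hA3 hm S hS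
  have hfin' : Module.Finite k (pc 𝔤 N r) :=
    Submodule.finiteDimensional_of_le (show pc 𝔤 N r ≤ wt k N from fun x hx => hx.1.2)
  have := fr k (F2 k) (pc 𝔤 N r) (pc 𝔤 N (r + 1)) hfin' S h h1 h2
  rw [Fintype.card_coe] at this
  exact hcard.trans (Nat.mul_le_mul_left _ this)

theorem main2 (ex : S_EX.{u}) (wd : S_WORD.{u}) (comb : S_COMB2) (num2 : S_NUM2) (fr : S_FR.{u})
    (mono : S_MONO.{u}) (up : S_UP.{u}) {k : Type u} [Field k] [CharZero k]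
    {𝔤 : Submodule k (F2 k)} (hgrt : 𝔤 ≤ grtSub k) (hbr : IharaClosed 𝔤)
    (hs : HasSoule 𝔤) {N r : ℕ} (hr : 1 ≤ r) (hN : 5 * (r * (r + 2)) ≤ N)
    (hpar : N % 2 = r % 2) :
    (N / (5 * r)) ^ (r - 1) ≤ r * dimG 𝔤 N r ∧
      dimG 𝔤 N r ≤ dimG (grtSub k) N r ∧ dimG (grtSub k) N r ≤ (N - 1).choose (r - 1) ∧
      dimG (grtSub k) N r ≤ 20 ^ r * dimG 𝔤 N r := by
  have hN2 : 2 ≤ N := by nlinarith
  obtain ⟨hfin, hup⟩ := up k (grtSub k) N r hN2 hr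
  have h1 := lower2 (t_IH t_DER) ex wd comb fr hgrt hbr hs hr hN hpar hfin
  exact ⟨h1, dimG_mono mono hgrt hfin r, hup, num2 r N _ _ hr hN h1 hup⟩

end Pool.Agent.J4H43.PP
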