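import Pool.Agent.J4H43.PP.Stm2

/-!
# The dimensions of the depth graded pieces: statements for all depths
-/

set_option autoImplicit false

namespace Pool.Agent.J4H43.PP

/-- (COMB3) the number of the brackets -/
def S_COMB3 : Prop := ∀ (r N B : ℕ) (_ : 2 ≤ r) (_ : 1 ≤ B)
    (_ : r * (3 * B + 2) + 3 * B + 1 ≤ N) (_ : N % 2 = r % 2),
    ∃ (A m : ℕ) (S : Finset (Fin m × List (Fin m))), Odd A ∧ 3 ≤ A ∧ m < A ∧
      (∀ s ∈ S, (∀ a ∈ s.2, a < s.1) ∧ s.2.length + 1 = r ∧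
        (A + 2 * (s.1 : ℕ)) + (s.2.map fun a => A + 2 * (a : ℕ)).sum = N) ∧
      B ^ (r - 1) ≤ r * S.card

/-- (COMB4) the number of the brackets, two small letters -/
def S_COMB4 : Prop := ∀ (r N : ℕ) (_ : 2 ≤ r) (_ : 6 * r + 5 ≤ N) (_ : N % 2 = r % 2),
    ∃ (A m : ℕ) (S : Finset (Fin m × List (Fin m))), Odd A ∧ 3 ≤ A ∧ m < A ∧
      (∀ s ∈ S, (∀ a ∈ s.2, a < s.1) ∧ s.2.length + 1 = r ∧
        (A + 2 * (s.1 : ℕ)) + (s.2.map fun a => A + 2 * (a : ℕ)).sum = N) ∧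
      2 ^ (r - 1) ≤ r * S.card

/-- (NUM3) the comparison of the bounds -/
def S_NUM3 : Prop := ∀ (r N a b : ℕ) (_ : 1 ≤ r) (_ : 3 * r < N) (_ : 1 ≤ a)
    (_ : b ≤ (N - 1).choose (r - 1))
    (_ : ∀ B : ℕ, 1 ≤ B → r * (3 * B + 2) + 3 * B + 1 ≤ N → B ^ (r - 1) ≤ r * a)
    (_ : 6 * r + 5 ≤ N → 2 ^ (r - 1) ≤ r * a), b ≤ 20 ^ r * a

end Pool.Agent.J4H43.PP
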