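import Pool.Agent.J4H43.PP.Fin
import Pool.Agent.J4H43.PP.Stm3
import Pool.Agent.J4H43.PP.Asm2

/-!
# The dimensions of the depth graded pieces: the theorem for all depths
-/

set_option autoImplicit false

namespace Pool.Agent.J4H43.PP

open Pool.Agent.Helper392_GT Pool.Agent.J4H43.FR Pool.Agent.J4H43.SW Pool.Agent.J4H43.MW

universe u

attribute [local instance 100] LieRing.ofAssociativeRing

theorem lowerS (ih : S_IH.{u}) (ex : S_EX.{u}) (wd : S_WORD.{u})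
    (fr : S_FR.{u}) {k : Type u} [Field k] [CharZero k] {𝔤 : Submodule k (F2 k)}
    (hgrt : 𝔤 ≤ grtSub k) (hbr : IharaClosed 𝔤)
    (hs : HasSoule 𝔤) {N r X : ℕ} (hfin : Module.Finite k (wt k N))
    (h : ∃ (A m : ℕ) (S : Finset (Fin m × List (Fin m))), Odd A ∧ 3 ≤ A ∧ m < A ∧
      (∀ s ∈ S, (∀ a ∈ s.2, a < s.1) ∧ s.2.length + 1 = r ∧
        (A + 2 * (s.1 : ℕ)) + (s.2.map fun a => A + 2 * (a : ℕ)).sum = N) ∧
      X ≤ r * S.card) :
    X ≤ r * dimG 𝔤 N r := by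
  obtain ⟨A, m, S, hA, hA3, hm, hS, hcard⟩ := h
  obtain ⟨h, h1, h2⟩ := indep ih ex wd hgrt hbr hs hA hA3 hm S hS
  have hfin' : Module.Finite k (pc 𝔤 N r) :=
    Submodule.finiteDimensional_of_le (show pc 𝔤 N r ≤ wt k N from fun x hx => hx.1.2)
  have := fr k (F2 k) (pc 𝔤 N r) (pc 𝔤 N (r + 1)) hfin' S h h1 h2
  rw [Fintype.card_coe] at this
  exact hcard.trans (Nat.mul_le_mul_left _ this)

theorem main3 (ex : S_EX.{u}) (wd : S_WORD.{u}) (comb3 : S_COMB3) (comb4 : S_COMB4)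
    (num3 : S_NUM3) (fr : S_FR.{u})
    (mono : S_MONO.{u}) (up : S_UP.{u}) {k : Type u} [Field k] [CharZero k]
    {𝔤 : Submodule k (F2 k)} (hgrt : 𝔤 ≤ grtSub k) (hbr : IharaClosed 𝔤)
    (hs : HasSoule 𝔤) {N r : ℕ} (hr : 1 ≤ r) (hN : 3 * r < N)
    (hpar : N % 2 = r % 2) :
    1 ≤ dimG 𝔤 N r ∧ ((N - 2 * r - 1) / (3 * r + 3)) ^ (r - 1) ≤ r * dimG 𝔤 N r ∧
      dimG 𝔤 N r ≤ dimG (grtSub k) N r ∧ dimG (grtSub k) N r ≤ (N - 1).choose (r - 1) ∧
      dimG (grtSub k) N r ≤ 20 ^ r * dimG 𝔤 N r := by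
  have hN2 : 2 ≤ N := by omega
  obtain ⟨hfin, hup⟩ := up k (grtSub k) N r hN2 hr
  have h0 := pos_dim (t_IH t_DER) ex wd fr hgrt hbr hs hr hN hpar hfin
  have h3 : ∀ B : ℕ, 1 ≤ B → r * (3 * B + 2) + 3 * B + 1 ≤ N →
      B ^ (r - 1) ≤ r * dimG 𝔤 N r := by
    intro B hB hB2
    rcases Nat.lt_or_ge r 2 with hr2 | hr2
    · have : r = 1 := by omega
      subst this
      rw [Nat.sub_self, pow_zero, one_mul]
      exact h0
    · exact lowerS (t_IH t_DER) ex wd fr hgrt hbr hs hfin (comb3 r N B hr2 hB hB2 hpar)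
  have h4 : 6 * r + 5 ≤ N → 2 ^ (r - 1) ≤ r * dimG 𝔤 N r := by
    intro hN4
    rcases Nat.lt_or_ge r 2 with hr2 | hr2
    · have : r = 1 := by omega
      subst this
      rw [Nat.sub_self, pow_zero, one_mul]
      exact h0
    · exact lowerS (t_IH t_DER) ex wd fr hgrt hbr hs hfin (comb4 r N hr2 hN4 hpar)
  refine ⟨h0, ?_, dimG_mono mono hgrt hfin r, hup, num3 r N _ _ hr hN h0 hup h3 h4⟩
  rcases Nat.eq_zero_or_pos ((N - 2 * r - 1) / (3 * r + 3)) with hB | hB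
  · rcases Nat.lt_or_ge r 2 with hr2 | hr2
    · have : r = 1 := by omega
      subst this
      rw [Nat.sub_self, pow_zero, one_mul]
      exact h0
    · rw [hB, zero_pow (by omega)]
      exact Nat.zero_le _
  · refine h3 _ hB ?_
    have h5 := Nat.div_mul_le_self (N - 2 * r - 1) (3 * r + 3)
    set B := (N - 2 * r - 1) / (3 * r + 3)
    have h6 : r * (3 * B + 2) + 3 * B + 1 = B * (3 * r + 3) + (2 * r + 1) := by ring
    rw [h6]
    have h7 : 1 ≤ B * (3 * r + 3) := Nat.mul_pos hB (by omega)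
    omega

end Pool.Agent.J4H43.PP
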