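import Pool.Agent.J4H43.PP.Stm2

/-!
# The comparison of the bounds
-/

set_option autoImplicit false

namespace Pool.Agent.J4H43.PP

theorem bern (r : ℕ) (hr : 21 ≤ r) : 7 * (r + 1) ^ (r + 1) ≤ 20 * r ^ (r + 1) := by
  have hr0 : (0 : ℝ) < r := by
    have : 0 < r := by omega
    exact_mod_cast this
  have hr21 : (21 : ℝ) ≤ r := by exact_mod_cast hr
  have h1 : (1 + 1 / (r : ℝ)) ^ (r + 1) ≤ 20 / 7 := by
    have h2 : 1 + 1 / (r : ℝ) ≤ Real.exp (1 / r) := by
      have := Real.add_one_le_exp (1 / (r : ℝ))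
      linarith
    have h3 : (1 + 1 / (r : ℝ)) ^ (r + 1) ≤ Real.exp (1 / r) ^ (r + 1) :=
      pow_le_pow_left₀ (by positivity) h2 _
    have h4 : Real.exp (1 / (r : ℝ)) ^ (r + 1) = Real.exp 1 * Real.exp (1 / r) := by
      rw [← Real.exp_nat_mul, ← Real.exp_add]
      congr 1
      push_cast
      field_simp
    have h5 : Real.exp (1 / (r : ℝ)) ≤ 21 / 20 := by
      have h6 : Real.exp (1 / (r : ℝ)) ≤ Real.exp (1 / 21) :=
        Real.exp_le_exp.mpr (one_div_le_one_div_of_le (by norm_num) hr21)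
      have h7 : 1 - 1 / 21 ≤ Real.exp (-(1 / 21 : ℝ)) := by
        have := Real.add_one_le_exp (-(1 / 21 : ℝ))
        linarith
      rw [Real.exp_neg] at h7
      have h8 : 0 < Real.exp (1 / 21 : ℝ) := Real.exp_pos _
      have h9 : Real.exp (1 / 21 : ℝ) * (Real.exp (1 / 21 : ℝ))⁻¹ = 1 := mul_inv_cancel₀ h8.ne'
      have h10 : (20 / 21 : ℝ) ≤ (Real.exp (1 / 21 : ℝ))⁻¹ := by linarith
      have h11 : Real.exp (1 / 21 : ℝ) * (20 / 21) ≤ 1 :=
        (mul_le_mul_of_nonneg_left h10 h8.le).trans_eq h9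
      linarith
    have h12 := Real.exp_one_lt_d9
    have h13 : 0 < Real.exp (1 / (r : ℝ)) := Real.exp_pos _
    rw [h4] at h3
    nlinarith
  have h2 : ((r : ℝ) + 1) ^ (r + 1) = r ^ (r + 1) * (1 + 1 / (r : ℝ)) ^ (r + 1) := by
    rw [← mul_pow]
    congr 1
    field_simp
  have h3 : 7 * ((r : ℝ) + 1) ^ (r + 1) ≤ 20 * (r : ℝ) ^ (r + 1) := by
    rw [h2]
    have h4 : (0 : ℝ) < (r : ℝ) ^ (r + 1) := by positivity
    nlinarith
  exact_mod_cast h3

theorem fac21 : ∀ r ∈ Finset.Icc 1 21, 7 ^ (r - 1) * r ^ r ≤ 20 ^ r * (r - 1).factorial := by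
  decide +kernel

theorem fac (r : ℕ) (hr : 1 ≤ r) : 7 ^ (r - 1) * r ^ r ≤ 20 ^ r * (r - 1).factorial := by
  by_cases h : r ≤ 21
  · exact fac21 r (Finset.mem_Icc.mpr ⟨hr, h⟩)
  · have key : ∀ r, 21 ≤ r → 7 ^ (r - 1) * r ^ r ≤ 20 ^ r * (r - 1).factorial := by
      intro r hr
      induction r, hr using Nat.le_induction with
      | base => exact fac21 21 (by decide)
      | succ r hr ih =>
        have h1 := bern r hr
        have h2 : 7 ^ (r + 1 - 1) * (r + 1) ^ (r + 1) =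
            7 ^ (r - 1) * (7 * (r + 1) ^ (r + 1)) := by
          obtain ⟨s, rfl⟩ : ∃ s, r = s + 1 := ⟨r - 1, by omega⟩
          rw [Nat.add_sub_cancel, Nat.add_sub_cancel, pow_succ]
          ring
        have h3 : (r + 1 - 1).factorial = r * (r - 1).factorial := by
          obtain ⟨s, rfl⟩ : ∃ s, r = s + 1 := ⟨r - 1, by omega⟩
          rw [Nat.add_sub_cancel, Nat.add_sub_cancel, Nat.factorial_succ]
        rw [h2, h3]
        calc 7 ^ (r - 1) * (7 * (r + 1) ^ (r + 1)) ≤ 7 ^ (r - 1) * (20 * r ^ (r + 1)) :=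
              Nat.mul_le_mul_left _ h1
          _ = 20 * r * (7 ^ (r - 1) * r ^ r) := by ring
          _ ≤ 20 * r * (20 ^ r * (r - 1).factorial) := Nat.mul_le_mul_left _ ih
          _ = 20 ^ (r + 1) * (r * (r - 1).factorial) := by ring
    exact key r (by omega)

theorem t_NUM2 : S_NUM2 := by
  intro r N a b hr hN ha hb
  set B := N / (5 * r) with hB
  have h1 : (r - 1).factorial * b ≤ (N - 1) ^ (r - 1) := by
    refine (Nat.mul_le_mul_left _ hb).trans ?_
    rw [← Nat.descFactorial_eq_factorial_mul_choose]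
    exact Nat.descFactorial_le_pow _ _
  have h2 : N - 1 ≤ 7 * r * B := by
    have h3 : 3 ≤ B := by
      rw [hB, Nat.le_div_iff_mul_le (by omega)]
      nlinarith
    have h4 : N < 5 * r * (B + 1) := Nat.lt_mul_div_succ N (by omega)
    have h5 := Nat.mul_le_mul_left r h3
    have h6 : 5 * r * (B + 1) = 5 * (r * B) + 5 * r := by ring
    have h7 : 7 * r * B = 7 * (r * B) := by ring
    omega
  have h5 : (r - 1).factorial * b ≤ (r - 1).factorial * (20 ^ r * a) := by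
    calc (r - 1).factorial * b ≤ (N - 1) ^ (r - 1) := h1
      _ ≤ (7 * r * B) ^ (r - 1) := Nat.pow_le_pow_left h2 _
      _ = (7 * r) ^ (r - 1) * B ^ (r - 1) := mul_pow _ _ _
      _ ≤ (7 * r) ^ (r - 1) * (r * a) := Nat.mul_le_mul_left _ ha
      _ = (7 ^ (r - 1) * r ^ r) * a := by
        obtain ⟨s, rfl⟩ : ∃ s, r = s + 1 := ⟨r - 1, by omega⟩
        rw [Nat.add_sub_cancel, mul_pow, pow_succ (s + 1) s]
        ring
      _ ≤ (20 ^ r * (r - 1).factorial) * a := Nat.mul_le_mul_right _ (fac r hr)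
      _ = (r - 1).factorial * (20 ^ r * a) := by ring
  exact Nat.le_of_mul_le_mul_left h5 (Nat.factorial_pos _)

end Pool.Agent.J4H43.PP
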