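import Pool.Agent.J4H43.MW.Fin

/-!
# The dimensions of the depth graded pieces: statements
-/

set_option autoImplicit false

namespace Pool.Agent.J4H43.PP

open Pool.Agent.Helper392_GT Pool.Agent.J4H43.FR Pool.Agent.J4H43.SW Pool.Agent.J4H43.MW

universe u

attribute [local instance 100] LieRing.ofAssociativeRing

/-- the part of weight `N` and depth at least `r` of `V` -/
noncomputable def pc {k : Type u} [Field k] (V : Submodule k (F2 k)) (N r : ℕ) :
    Submodule k (F2 k) := V ⊓ wt k N ⊓ dep k r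

/-- the dimension of the part of weight `N` and depth `r` of the depth graded space of `V` -/
noncomputable def dimG {k : Type u} [Field k] (V : Submodule k (F2 k)) (N r : ℕ) : ℕ :=
  Module.finrank k (pc V N r ⧸ (pc V N (r + 1)).submoduleOf (pc V N r))

/-- the left normed bracket `[...[[X_j, X_{l_1}], X_{l_2}], ...]` -/
noncomputable def br (k : Type u) [Field k] {m : ℕ} (j : Fin m) (l : List (Fin m)) :
    FreeLieAlgebra k (Fin m) :=
  l.foldl (fun R a => ⁅R, FreeLieAlgebra.of k a⁆) (FreeLieAlgebra.of k j)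

/-- (DER) the derivation `D_f` raises the depth by the depth of `f` -/
def S_DER : Prop := ∀ (k : Type u) [Field k] [CharZero k] (m n : ℕ) (f u : F2 k)
    (D : LieDerivation k (F2 k) (F2 k)) (_ : IsIharaDer D f) (_ : DepthGE k m f)
    (_ : DepthGE k n u), DepthGE k (m + n) (D u)

/-- (WORD) the words of the left normed brackets that begin with the largest letter -/
def S_WORD : Prop := ∀ (k : Type u) [Field k] (m : ℕ) (i j : Fin m) (l l' : List (Fin m))
    (_ : ∀ a ∈ l, a < i) (_ : ∀ a ∈ l', a < j),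
    wc (FreeMonoid.ofList (i :: l)) (toA k m (br k j l')) = if i = j ∧ l = l' then 1 else 0

/-- (IH) brackets in `𝔤` -/
def S_IH : Prop := ∀ (k : Type u) [Field k] [CharZero k] (𝔤 : Submodule k (F2 k))
    (_ : IharaClosed 𝔤) (m : ℕ) (σ : Fin m → F2 k) (n : Fin m → ℕ)
    (D : Fin m → LieDerivation k (F2 k) (F2 k)) (_ : ∀ i, IsIharaDer (D i) (σ i))
    (_ : ∀ i, σ i ∈ 𝔤) (_ : ∀ i, σ i ∈ wt k (n i)) (_ : ∀ i, DepthGE k 1 (σ i))
    (j : Fin m) (l : List (Fin m)),
    ∃ h ∈ 𝔤, IsIharaDer (FreeLieAlgebra.lift k D (br k j l)) h ∧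
      h ∈ wt k (n j + (l.map n).sum) ∧ DepthGE k (l.length + 1) h

/-- (EX) the derivation `D_f` exists -/
def S_EX : Prop := ∀ (k : Type u) [Field k] (f : F2 k),
    ∃ D : LieDerivation k (F2 k) (F2 k), IsIharaDer D f

/-- (COMB) the number of the brackets -/
def S_COMB : Prop := ∀ (r N : ℕ) (_ : 1 ≤ r) (_ : 4 * (r * (r + 2)) ≤ N) (_ : N % 2 = r % 2),
    ∃ (A m : ℕ) (S : Finset (Fin m × List (Fin m))), Odd A ∧ 3 ≤ A ∧ m < A ∧
      (∀ s ∈ S, (∀ a ∈ s.2, a < s.1) ∧ s.2.length + 1 = r ∧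
        (A + 2 * (s.1 : ℕ)) + (s.2.map fun a => A + 2 * (a : ℕ)).sum = N) ∧
      (N / (2 * (r * (r + 2)))) ^ (r - 1) ≤ S.card

/-- (FR) a lower bound for the dimension of a quotient -/
def S_FR : Prop := ∀ (k : Type u) [Field k] (E : Type u) [AddCommGroup E] [Module k E]
    (V W : Submodule k E) (_ : Module.Finite k V) (ι : Type) [Fintype ι] (h : ι → E)
    (_ : ∀ i, h i ∈ V) (_ : ∀ c : ι → k, ∑ i, c i • h i ∈ W → c = 0),
    Fintype.card ι ≤ Module.finrank k (V ⧸ W.submoduleOf V)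

/-- (MONO) the dimension is monotone -/
def S_MONO : Prop := ∀ (k : Type u) [Field k] (E : Type u) [AddCommGroup E] [Module k E]
    (V V' A B : Submodule k E) (_ : Module.Finite k A) (_ : V ≤ V') (_ : B ≤ A),
    Module.finrank k (↥(V ⊓ A) ⧸ (V ⊓ B).submoduleOf (V ⊓ A)) ≤
      Module.finrank k (↥(V' ⊓ A) ⧸ (V' ⊓ B).submoduleOf (V' ⊓ A))

/-- (END) the words that end with `y` determine a Lie element -/
def S_END : Prop := ∀ (k : Type u) [Field k] [CharZero k] (N r : ℕ) (_ : 2 ≤ N) (_ : 1 ≤ r)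
    (f : F2 k) (_ : f ∈ wt k N) (_ : DepthGE k r f)
    (_ : ∀ w : FreeMonoid (Fin 2), (FreeMonoid.toList w).count 1 + 1 = r → w.length + 1 = N →
      wordCoeff k f (w * FreeMonoid.of 1) = 0), DepthGE k (r + 1) f

/-- (UP) the upper bound -/
def S_UP : Prop := ∀ (k : Type u) [Field k] [CharZero k] (V : Submodule k (F2 k)) (N r : ℕ)
    (_ : 2 ≤ N) (_ : 1 ≤ r), Module.Finite k (wt k N) ∧ dimG V N r ≤ (N - 1).choose (r - 1)

end Pool.Agent.J4H43.PP
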