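import Pool.Agent.J4H43.PP.Stm
import Pool.Agent.J4H43.PP.Ih

/-!
# The words of left normed brackets
-/

set_option autoImplicit false

namespace Pool.Agent.J4H43.PP

open Pool.Agent.Helper392_GT Pool.Agent.J4H43.FR Pool.Agent.J4H43.SW Pool.Agent.J4H43.MW

universe u

attribute [local instance 100] LieRing.ofAssociativeRing

variable {k : Type u} [Field k] {m : ℕ}

theorem toA_snoc (j : Fin m) (l : List (Fin m)) (a : Fin m) :
    toA k m (br k j (l ++ [a])) = toA k m (br k j l) * FreeAlgebra.ι k a -
      FreeAlgebra.ι k a * toA k m (br k j l) := by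
  rw [br_snoc, LieHom.map_lie, LieRing.of_associative_ring_bracket]
  have : toA k m (FreeLieAlgebra.of k a) = FreeAlgebra.ι k a := by
    rw [toA]
    exact FreeLieAlgebra.lift_of_apply _ _
  rw [this]

theorem wc_nil_mul_ι (a : Fin m) (b : FreeAlgebra k (Fin m)) :
    wc 1 (b * FreeAlgebra.ι k a) = 0 := by
  rw [wc_one, map_mul, eps_ι, mul_zero]

/-- every word contains the first letter -/
theorem word_mem (j : Fin m) (l' : List (Fin m)) : ∀ v : FreeMonoid (Fin m),
    j ∉ FreeMonoid.toList v → wc v (toA k m (br k j l')) = 0 := by
  induction l' using List.reverseRecOn with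
  | nil =>
    intro v hv
    have h1 : toA k m (br k j []) = FreeAlgebra.ι k j := by
      rw [br, List.foldl_nil, toA]
      exact FreeLieAlgebra.lift_of_apply _ _
    rw [h1, ← wrd_of, wc_wrd_ne]
    intro h
    apply hv
    rw [h]
    exact List.mem_singleton.mpr rfl
  | append_singleton l a ih =>
    intro v hv
    rw [toA_snoc, map_sub]
    have e1 : wc v (toA k m (br k j l) * FreeAlgebra.ι k a) = 0 := by
      rcases List.eq_nil_or_concat' (FreeMonoid.toList v) with h | ⟨L, b, h⟩
      · have hv1 : v = 1 := h
        rw [hv1]
        exact wc_nil_mul_ι a _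
      · have hv1 : v = FreeMonoid.ofList L * FreeMonoid.of b := h
        by_cases hb : b = a
        · rw [hv1, hb, wc_mul_ι]
          apply ih
          intro hj
          apply hv
          rw [h]
          exact List.mem_append_left _ hj
        · rw [hv1, wc_mul_ι_ne _ hb]
    have e2 : wc v (FreeAlgebra.ι k a * toA k m (br k j l)) = 0 := by
      induction v using FreeMonoid.casesOn with
      | one => exact wc_nil_ι_mul _ _
      | of_mul b u =>
        by_cases hb : b = a
        · rw [hb, wc_ι_mul]
          apply ih
          intro hj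
          apply hv
          exact List.mem_cons_of_mem _ hj
        · rw [wc_ι_mul_ne (fun h => hb h.symm)]
    rw [e1, e2, sub_zero]

theorem word_main (j : Fin m) (l' : List (Fin m)) (hl' : ∀ a ∈ l', a < j) :
    ∀ (i : Fin m) (l : List (Fin m)), (∀ a ∈ l, a < i) →
      wc (FreeMonoid.ofList (i :: l)) (toA k m (br k j l')) =
        if i = j ∧ l = l' then 1 else 0 := by
  induction l' using List.reverseRecOn with
  | nil =>
    intro i l hl
    have h1 : toA k m (br k j []) = FreeAlgebra.ι k j := by
      rw [br, List.foldl_nil, toA]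
      exact FreeLieAlgebra.lift_of_apply _ _
    rw [h1, ← wrd_of]
    by_cases h : i = j ∧ l = []
    · rw [if_pos h, h.1, h.2]
      exact wc_wrd_self _
    · rw [if_neg h, wc_wrd_ne]
      intro h2
      apply h
      have h3 : i :: l = [j] := h2
      injection h3 with h4 h5
      exact ⟨h4, h5⟩
  | append_singleton l0 a ih =>
    intro i l hl
    have haj : a < j := hl' a (List.mem_append_right _ (List.mem_singleton.mpr rfl))
    have ih' := ih (fun b hb => hl' b (List.mem_append_left _ hb))
    rw [toA_snoc, map_sub]
    -- the second term vanishes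
    have e2 : wc (FreeMonoid.ofList (i :: l)) (FreeAlgebra.ι k a * toA k m (br k j l0)) = 0 := by
      change wc (FreeMonoid.of i * FreeMonoid.ofList l) _ = 0
      by_cases hi : i = a
      · rw [hi, wc_ι_mul]
        apply word_mem
        intro hj
        have h1 := hl j hj
        rw [hi] at h1
        exact absurd (h1.trans haj) (lt_irrefl _)
      · rw [wc_ι_mul_ne (fun h => hi h.symm)]
    rw [e2, sub_zero]
    rcases List.eq_nil_or_concat' l with h | ⟨L, b, h⟩
    · subst h
      rw [if_neg (by rintro ⟨-, h⟩; exact absurd h.symm (by simp))]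
      change wc (FreeMonoid.of i) _ = 0
      have h1 : (FreeMonoid.of i : FreeMonoid (Fin m)) = 1 * FreeMonoid.of i := (one_mul _).symm
      rw [h1]
      by_cases hi : i = a
      · rw [hi, wc_mul_ι]
        exact word_mem j l0 1 (by intro h; exact absurd h List.not_mem_nil)
      · rw [wc_mul_ι_ne _ hi]
    · subst h
      change wc (FreeMonoid.ofList (i :: L) * FreeMonoid.of b) _ = _
      by_cases hb : b = a
      · rw [hb, wc_mul_ι, ih' i L (fun c hc => hl c (List.mem_append_left _ hc))]
        by_cases h : i = j ∧ L = l0
        · rw [if_pos h, if_pos ⟨h.1, by rw [h.2]⟩]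
        · rw [if_neg h, if_neg]
          rintro ⟨h2, h3⟩
          exact h ⟨h2, List.append_cancel_right h3⟩
      · rw [wc_mul_ι_ne _ hb, if_neg]
        rintro ⟨-, h3⟩
        apply hb
        have := List.append_inj_right' h3 rfl
        injection this

theorem t_WORD : S_WORD.{u} := by
  intro k _ m i j l l' hl hl'
  exact word_main j l' hl' i l hl

end Pool.Agent.J4H43.PP
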